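import Pool.Agent.H70.EN.Targets

/-!
# Comparison of the largest correlations of two windows
-/

set_option autoImplicit false

open Finset Pool.Agent.H6.N4D Pool.Agent.H93.EB Pool.Agent.H70.EN

namespace Pool.Agent.H88.ENM

theorem norm_term {lam : ℕ → ℝ} (hl : ∀ k, |lam k| ≤ 1) (θ : ℝ) (m : ℕ) :
    ‖(lam m : ℂ) * ee (-(θ * m))‖ ≤ 1 := by
  rw [norm_mul, norm_ee, mul_one, Complex.norm_real, Real.norm_eq_abs]
  exact hl m

theorem norm_sum_card {lam : ℕ → ℝ} (hl : ∀ k, |lam k| ≤ 1) (θ : ℝ) (s : Finset ℕ) :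
    ‖∑ m ∈ s, (lam m : ℂ) * ee (-(θ * m))‖ ≤ (s.card : ℝ) := by
  refine (norm_sum_le _ _).trans ?_
  refine (Finset.sum_le_sum fun m _ => norm_term hl θ m).trans ?_
  rw [Finset.sum_const, nsmul_eq_mul, mul_one]

theorem mul_norm_cr (lam : ℕ → ℝ) (N n : ℕ) (θ : ℝ) :
    (N : ℝ) * ‖cr lam N n θ‖ = ‖∑ m ∈ Ioc n (n + N), (lam m : ℂ) * ee (-(θ * m))‖ := by
  unfold cr
  rcases Nat.eq_zero_or_pos N with h | h
  · subst h
    simp
  · have hN : (0 : ℝ) < N := by exact_mod_cast h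
    rw [norm_div, Complex.norm_natCast, mul_div_cancel₀ _ hN.ne']

theorem pf_CMP (h1 : T_MAT) : T_CMP := by
  intro lam N n N' n' hl
  obtain ⟨⟨θ, -, -, hθ⟩, -⟩ := h1 lam 1 N n
  have h2 := (h1 lam 1 N' n').2.1 θ
  have h3 : ‖∑ m ∈ Ioc n (n + N), (lam m : ℂ) * ee (-(θ * m))‖ ≤
      ‖∑ m ∈ Ioc n' (n' + N'), (lam m : ℂ) * ee (-(θ * m))‖ +
      ((Ioc n (n + N) \ Ioc n' (n' + N')).card : ℝ) +
      ((Ioc n' (n' + N') \ Ioc n (n + N)).card : ℝ) := by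
    have h4 := Finset.sum_sdiff_sub_sum_sdiff (s₁ := Ioc n' (n' + N')) (s₂ := Ioc n (n + N))
      (f := fun m : ℕ => (lam m : ℂ) * ee (-(θ * m)))
    have h5 : ∑ m ∈ Ioc n (n + N), (lam m : ℂ) * ee (-(θ * m)) =
        ∑ m ∈ Ioc n' (n' + N'), (lam m : ℂ) * ee (-(θ * m)) +
        ∑ m ∈ Ioc n (n + N) \ Ioc n' (n' + N'), (lam m : ℂ) * ee (-(θ * m)) -
        ∑ m ∈ Ioc n' (n' + N') \ Ioc n (n + N), (lam m : ℂ) * ee (-(θ * m)) := by
      rw [add_sub_assoc, h4]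
      ring
    rw [h5]
    refine (norm_sub_le _ _).trans ?_
    have h6 := norm_add_le (∑ m ∈ Ioc n' (n' + N'), (lam m : ℂ) * ee (-(θ * m)))
      (∑ m ∈ Ioc n (n + N) \ Ioc n' (n' + N'), (lam m : ℂ) * ee (-(θ * m)))
    have h7 := norm_sum_card hl θ (Ioc n (n + N) \ Ioc n' (n' + N'))
    have h8 := norm_sum_card hl θ (Ioc n' (n' + N') \ Ioc n (n + N))
    linarith
  rw [hθ, mul_norm_cr]
  have h9 : ‖∑ m ∈ Ioc n' (n' + N'), (lam m : ℂ) * ee (-(θ * m))‖ ≤ N' * M lam N' n' := by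
    rw [← mul_norm_cr]
    exact mul_le_mul_of_nonneg_left h2 (Nat.cast_nonneg _)
  linarith

end Pool.Agent.H88.ENM
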