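import Pool.Agent.H70.EN.Targets

/-!
# The energy on the multiples of `q` on the short windows
-/

set_option autoImplicit false

open Finset Pool.Agent.H6.N4D Pool.Agent.H93.EB Pool.Agent.H70.EN

namespace Pool.Agent.H88.ENM

theorem lio_le {lam : ℕ → ℝ} (h : Lio lam) (n : ℕ) : |lam n| ≤ 1 := by
  rcases h.pm n with h1 | h1
  · rw [h1, abs_one]
  · rw [h1, abs_neg, abs_one]

theorem log_two_pow_le (k m : ℕ) (h : k ≤ m) : Real.log ((2 ^ k : ℕ) : ℝ) ≤ m := by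
  rw [Nat.cast_pow, Nat.cast_ofNat, Real.log_pow]
  have h1 : Real.log 2 ≤ 1 := by
    have := Real.log_le_sub_one_of_pos (show (0 : ℝ) < 2 by norm_num)
    linarith
  have h2 : (k : ℝ) ≤ m := by exact_mod_cast h
  have h3 : (0 : ℝ) ≤ k := Nat.cast_nonneg k
  have h4 : 0 ≤ Real.log 2 := Real.log_nonneg (by norm_num)
  nlinarith

theorem pf_SC1 (h1 : T_MN1) (h2 : T_SCV) : T_SC1 := by
  obtain ⟨C1, hC1, h1⟩ := h1
  obtain ⟨C2, hC2, h2⟩ := h2
  refine ⟨C1 + C2, by positivity, fun X m q lam hX hlam hq => ?_⟩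
  unfold QQ at hq
  rw [mem_filter, mem_Ioc] at hq
  obtain ⟨⟨hq1, hq2⟩, hqp⟩ := hq
  have hlX : 0 ≤ Real.log X := Real.log_nonneg (by exact_mod_cast (by omega : 1 ≤ X))
  have hqpos : 0 < q := hqp.pos
  have hqm : q ≤ 2 ^ m := hq2.trans (Nat.pow_le_pow_right (by norm_num) (by omega))
  have hN1 : 1 ≤ 2 ^ m / q := (Nat.one_le_div_iff hqpos).2 hqm
  have hN1' : 2 ^ m / q ≤ 2 ^ (m - m / 400) := by
    refine (Nat.div_le_div_left hq1.le (by positivity)).trans ?_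
    rw [Nat.pow_div (by omega) (by norm_num)]
  have hH : 2 ^ m / q ≤ 2 ^ (m - m / 500) :=
    hN1'.trans (Nat.pow_le_pow_right (by norm_num) (by omega))
  have hl : ∀ n, |lam n| ≤ 1 := lio_le hlam
  have e1 := (h1 X (2 ^ m / q) (2 ^ (m - m / 500)) lam hX hl hN1 hH).1
  have e2 := abs_le.1 (h2 X q (2 ^ m) lam hX hlam hqp hqm)
  -- the ratios
  have r1 : ((2 ^ m / q : ℕ) : ℝ) / ((2 ^ (m - m / 500) : ℕ) : ℝ) ≤ (1 / 2) ^ (m / 2000) := by
    have f1 : ((2 ^ m / q : ℕ) : ℝ) ≤ (2 : ℝ) ^ (m - m / 400) := by exact_mod_cast hN1'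
    have f2 : (0 : ℝ) < (2 : ℝ) ^ (m - m / 500) := by positivity
    have f3 : ((2 ^ (m - m / 500) : ℕ) : ℝ) = (2 : ℝ) ^ (m - m / 500) := by push_cast; rfl
    rw [f3, div_le_iff₀ f2, one_div, inv_pow]
    have f4 : (2 : ℝ) ^ (m - m / 400) * 2 ^ (m / 2000) ≤ 2 ^ (m - m / 500) := by
      rw [← pow_add]
      exact pow_le_pow_right₀ (by norm_num) (by omega)
    have f5 : (0 : ℝ) < (2 : ℝ) ^ (m / 2000) := by positivity
    rw [← div_eq_inv_mul, le_div_iff₀ f5]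
    exact (mul_le_mul_of_nonneg_right f1 f5.le).trans f4
  have r2 : (q : ℝ) / ((2 ^ m : ℕ) : ℝ) ≤ (1 / 2) ^ (m / 2000) := by
    have f1 : (q : ℝ) ≤ (2 : ℝ) ^ (m / 200) := by exact_mod_cast hq2
    have f2 : (0 : ℝ) < (2 : ℝ) ^ m := by positivity
    have f3 : ((2 ^ m : ℕ) : ℝ) = (2 : ℝ) ^ m := by push_cast; rfl
    rw [f3, div_le_iff₀ f2, one_div, inv_pow]
    have f4 : (2 : ℝ) ^ (m / 200) * 2 ^ (m / 2000) ≤ 2 ^ m := by
      rw [← pow_add]
      exact pow_le_pow_right₀ (by norm_num) (by omega)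
    have f5 : (0 : ℝ) < (2 : ℝ) ^ (m / 2000) := by positivity
    rw [← div_eq_inv_mul, le_div_iff₀ f5]
    exact (mul_le_mul_of_nonneg_right f1 f5.le).trans f4
  have l1 := log_two_pow_le (m - m / 500) m (by omega)
  have l2 : Real.log q ≤ m := by
    have f1 : (q : ℝ) ≤ ((2 ^ (m / 200) : ℕ) : ℝ) := by exact_mod_cast hq2
    exact (Real.log_le_log (by exact_mod_cast hqpos) f1).trans
      (log_two_pow_le (m / 200) m (by omega))
  have g1 : C1 * (((2 ^ m / q : ℕ) : ℝ) / ((2 ^ (m - m / 500) : ℕ) : ℝ) * Real.log X +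
      Real.log ((2 ^ (m - m / 500) : ℕ) : ℝ) + 1) ≤
      C1 * ((1 / 2) ^ (m / 2000) * Real.log X + m + 1) := by
    refine mul_le_mul_of_nonneg_left ?_ hC1.le
    have := mul_le_mul_of_nonneg_right r1 hlX
    linarith
  have g2 : C2 * ((q : ℝ) / ((2 ^ m : ℕ) : ℝ) * Real.log X + Real.log q + 1) ≤
      C2 * ((1 / 2) ^ (m / 2000) * Real.log X + m + 1) := by
    refine mul_le_mul_of_nonneg_left ?_ hC2.le
    have := mul_le_mul_of_nonneg_right r2 hlX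
    linarith
  have e3 := e2.1
  linarith

end Pool.Agent.H88.ENM
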